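import Pool.Agent.Q99.FAL.Stm

/-! # Project FAL: the Fourier basis, jobs ZU and ZW -/

set_option autoImplicit false

namespace Pool.Agent.Q24.FAL

open Matrix Finset
open Pool.Agent.H550R3.Jones (WM IsMod IsInt br brf W irr tens)
open Pool.Agent.W715.VC (rt)
open Pool.Agent.Q191.TW (cs cs_add cs_zero cs_ne cs_neg cs_norm rt_cs cs_period cs_period')
open Pool.Agent.Q99.FAL

variable {N : ℕ}

lemma cs_eq_one (hN : 0 < N) {k : ℤ} (h : cs N (2 * (k : ℝ)) = 1) : (N : ℤ) ∣ k := by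
  unfold cs at h
  rw [Complex.exp_eq_one_iff] at h
  obtain ⟨n, hn⟩ := h
  have hpi : (Real.pi : ℂ) ≠ 0 := by exact_mod_cast Real.pi_ne_zero
  have hN0 : (N : ℂ) ≠ 0 := by exact_mod_cast hN.ne'
  refine ⟨n, ?_⟩
  have h1 : ((k : ℤ) : ℂ) = ((N * n : ℤ) : ℂ) := by
    push_cast at hn ⊢
    field_simp at hn
    exact hn
  exact_mod_cast h1

lemma cs_dvd (hN : 0 < N) {k : ℤ} (h : (N : ℤ) ∣ k) : cs N (2 * (k : ℝ)) = 1 := by
  obtain ⟨c, rfl⟩ := h
  rw [← cs_zero N]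
  refine cs_period' hN c ?_
  push_cast
  ring

lemma cs_nat (x : ℝ) (n : ℕ) : cs N (x * n) = cs N x ^ n := by
  induction n with
  | zero => simp [cs_zero]
  | succ n ih =>
    rw [pow_succ, ← ih, ← cs_add]
    congr 1
    push_cast
    ring

/-- sums of roots of unity -/
lemma geo (hN : 0 < N) (k : ℤ) :
    ∑ x ∈ range N, cs N (2 * (k : ℝ) * (x : ℕ)) = if (N : ℤ) ∣ k then (N : ℂ) else 0 := by
  simp only [cs_nat]
  split_ifs with h
  · rw [cs_dvd hN h]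
    simp
  · have h1 : cs N (2 * (k : ℝ)) ≠ 1 := fun h2 => h (cs_eq_one hN h2)
    rw [geom_sum_eq h1]
    have h2 : cs N (2 * (k : ℝ)) ^ N = 1 := by
      rw [← cs_nat, ← cs_zero N]
      refine cs_period' hN k ?_
      ring
    rw [h2, sub_self, zero_div]

lemma geoF (hN : 0 < N) (k : ℤ) :
    ∑ x : Fin N, cs N (2 * (k : ℝ) * ((x : ℕ) : ℝ)) = if (N : ℤ) ∣ k then (N : ℂ) else 0 := by
  rw [← geo hN k, Finset.sum_range]

/-! ### periodicity -/

lemma ph_per (hN : 0 < N) (k x : ℤ) {s s' : ℤ} (h : (N : ℤ) ∣ s' - s) :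
    ph N k s' x = ph N k s x := by
  obtain ⟨c, hc⟩ := h
  have hs : (s' : ℝ) = s + N * c := by
    have : s' = s + N * c := by linarith
    exact_mod_cast this
  unfold ph
  refine cs_period' hN (-(c * x)) ?_
  rw [hs]
  push_cast
  ring

lemma uv_per (hN : 0 < N) {i i' j j' : ℤ} (h : (N : ℤ) ∣ i' - i) (h' : (N : ℤ) ∣ j' - j) :
    uv N i' j' = uv N i j := by
  funext p
  unfold uv
  rw [ph_per hN _ _ h, ph_per hN _ _ h']

lemma wv_per (hN : 0 < N) (n1 : ℤ) {s s' : ℤ} (h : (N : ℤ) ∣ s' - s) : wv N n1 s' = wv N n1 s := by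
  unfold wv
  refine Finset.sum_congr rfl fun a _ => Finset.sum_congr rfl fun b _ => ?_
  rw [uv_per hN (i' := s' + a + b) (i := s + a + b) (j' := s' + b) (j := s + b)]
  · have : s' + a + b - (s + a + b) = s' - s := by ring
    rwa [this]
  · have : s' + b - (s + b) = s' - s := by ring
    rwa [this]

lemma zv_per (hN : 0 < N) (n1 : ℤ) {i i' j j' : ℤ} (h : (N : ℤ) ∣ i' - i) (h' : (N : ℤ) ∣ j' - j) :
    zv N n1 i' j' = zv N n1 i j := by
  have e : (j' - i' - 1) % (N : ℤ) = (j - i - 1) % N := by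
    rw [Int.emod_eq_emod_iff_emod_sub_eq_zero]
    apply Int.emod_eq_zero_of_dvd
    have : j' - i' - 1 - (j - i - 1) = (j' - j) - (i' - i) := by ring
    rw [this]
    exact dvd_sub h' h
  unfold zv
  rw [e]
  refine Finset.sum_congr rfl fun b _ => ?_
  rw [wv_per hN n1 (s' := j' + b) (s := j + b)]
  have : j' + b - (j + b) = j' - j := by ring
  rwa [this]

/-! ### the inverse transform -/

lemma pick (hN : 0 < N) (f : ℤ → ℂ) (hf : ∀ s s' : ℤ, (N : ℤ) ∣ s' - s → f s' = f s) (a : ℤ) :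
    ∑ i ∈ range N, (if (N : ℤ) ∣ ((i : ℕ) : ℤ) - a then (N : ℂ) else 0) * f i = N * f a := by
  have hN' : (0 : ℤ) < N := by exact_mod_cast hN
  have h1 := Int.emod_nonneg a hN'.ne'
  have h2 := Int.emod_lt_of_pos a hN'
  obtain ⟨m, hm⟩ : ∃ m : ℕ, (m : ℤ) = a % N := ⟨(a % N).toNat, Int.toNat_of_nonneg h1⟩
  have h3 : (N : ℤ) ∣ (m : ℤ) - a := by
    rw [hm]
    exact (Int.modEq_iff_dvd.1 (Int.mod_modEq a N).symm)
  have hmN : m < N := by omega
  rw [Finset.sum_eq_single m]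
  · rw [if_pos h3, hf a m h3]
  · intro i hi hne
    rw [if_neg, zero_mul]
    intro h4
    have h5 : (N : ℤ) ∣ (i : ℤ) - m := by
      have : (i : ℤ) - m = (i - a) - (m - a) := by ring
      rw [this]
      exact dvd_sub h4 h3
    have hi' := Finset.mem_range.1 hi
    obtain ⟨c, hc⟩ := h5
    have hc0 : c = 0 := by
      by_contra hc0
      have i1 : (i : ℤ) < N := by exact_mod_cast hi'
      have i2 : (m : ℤ) < N := by exact_mod_cast hmN
      rcases lt_or_gt_of_ne hc0 with h | h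
      · nlinarith
      · nlinarith
    rw [hc0, mul_zero] at hc
    omega
  · intro h; exact absurd (Finset.mem_range.2 hmN) h

lemma ph_ne (k s x : ℤ) : ph N k s x ≠ 0 := cs_ne _ _

lemma uv_ne (i j : ℤ) (p : Fin N × Fin N) : uv N i j p ≠ 0 := mul_ne_zero (ph_ne _ _ _) (ph_ne _ _ _)

lemma ph_orth (hN : 0 < N) (k s' s : ℤ) :
    ∑ x : Fin N, (ph N k s' (x : ℕ))⁻¹ * ph N k s (x : ℕ) =
      if (N : ℤ) ∣ s' - s then (N : ℂ) else 0 := by
  rw [← geoF hN (s' - s)]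
  apply Finset.sum_congr rfl
  intro x _
  unfold ph
  rw [← cs_neg, ← cs_add]
  congr 1
  push_cast
  ring

lemma uv_orth (hN : 0 < N) (i' j' i j : ℤ) :
    ∑ q : Fin N × Fin N, (uv N i' j' q)⁻¹ * uv N i j q =
      (if (N : ℤ) ∣ i' - i then (N : ℂ) else 0) * (if (N : ℤ) ∣ j' - j then (N : ℂ) else 0) := by
  rw [← ph_orth hN 0, ← ph_orth hN 1, Finset.sum_mul_sum, Fintype.sum_prod_type]
  refine Finset.sum_congr rfl fun x _ => Finset.sum_congr rfl fun y _ => ?_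
  unfold uv
  simp only []
  rw [mul_inv]
  ring

lemma zm_uv (hN : 0 < N) (n1 i j : ℤ) : Zm N n1 *ᵥ uv N i j = zv N n1 i j := by
  funext p
  have hN0 : (N : ℂ) ≠ 0 := by exact_mod_cast hN.ne'
  have h1 : (Zm N n1 *ᵥ uv N i j) p = ((N : ℂ) ^ 2)⁻¹ *
      ∑ i' ∈ range N, ∑ j' ∈ range N, zv N n1 i' j' p *
        ∑ q : Fin N × Fin N, (uv N i' j' q)⁻¹ * uv N i j q := by
    simp only [mulVec, dotProduct, Zm]
    simp only [Finset.mul_sum, Finset.sum_mul]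
    rw [Finset.sum_comm]
    apply Finset.sum_congr rfl
    intro i' _
    rw [Finset.sum_comm]
    refine Finset.sum_congr rfl fun j' _ => Finset.sum_congr rfl fun q _ => ?_
    ring
  rw [h1]
  simp only [uv_orth hN]
  have h2 : ∀ i' : ℕ, ∑ j' ∈ range N, zv N n1 i' j' p *
      ((if (N : ℤ) ∣ (i' : ℤ) - i then (N : ℂ) else 0) *
        (if (N : ℤ) ∣ (j' : ℤ) - j then (N : ℂ) else 0)) =
      (if (N : ℤ) ∣ (i' : ℤ) - i then (N : ℂ) else 0) * (N * zv N n1 i' j p) := by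
    intro i'
    rw [← pick hN (fun j' => zv N n1 i' j' p) (fun s s' h => by
      rw [zv_per hN n1 (i := (i' : ℤ)) (i' := (i' : ℤ)) (by simp) h]) j, Finset.mul_sum]
    refine Finset.sum_congr rfl fun j' _ => ?_
    ring
  simp only [h2]
  rw [pick hN (fun i' => N * zv N n1 i' j p) (fun s s' h => by
      rw [zv_per hN n1 (j := j) (j' := j) h (by simp)]) i]
  field_simp

lemma ph_orth' (hN : 0 < N) (k : ℤ) (x' x : Fin N) :
    ∑ s ∈ range N, (ph N k (s : ℕ) (x' : ℕ))⁻¹ * ph N k (s : ℕ) (x : ℕ) =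
      if x' = x then (N : ℂ) else 0 := by
  have h1 : ∀ s : ℕ, (ph N k (s : ℕ) (x' : ℕ))⁻¹ * ph N k (s : ℕ) (x : ℕ) =
      cs N (((x' : ℕ) : ℝ) ^ 2 / 2 + ((N : ℝ) - 1) * k * ((x' : ℕ) : ℝ) -
        (((x : ℕ) : ℝ) ^ 2 / 2 + ((N : ℝ) - 1) * k * ((x : ℕ) : ℝ))) *
        cs N (2 * ((((x' : ℕ) : ℤ) - ((x : ℕ) : ℤ) : ℤ) : ℝ) * (s : ℕ)) := by
    intro s
    unfold ph
    rw [← cs_neg, ← cs_add, ← cs_add]
    congr 1
    push_cast
    ring
  simp only [h1]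
  rw [← Finset.mul_sum, geo hN]
  by_cases h : x' = x
  · subst h
    rw [sub_self, if_pos rfl, sub_self, if_pos (dvd_zero _), cs_zero, one_mul]
  · rw [if_neg h, if_neg, mul_zero]
    rintro ⟨c, hc⟩
    have i1 := x'.2
    have i2 := x.2
    have i1' : ((x' : ℕ) : ℤ) < N := by exact_mod_cast i1
    have i2' : ((x : ℕ) : ℤ) < N := by exact_mod_cast i2
    have hc0 : c = 0 := by
      by_contra hc0
      rcases lt_or_gt_of_ne hc0 with h | h
      · nlinarith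
      · nlinarith
    rw [hc0, mul_zero] at hc
    apply h
    apply Fin.ext
    omega

lemma uv_orth' (hN : 0 < N) (q' q : Fin N × Fin N) :
    ∑ i ∈ range N, ∑ j ∈ range N, (uv N i j q')⁻¹ * uv N i j q =
      if q' = q then (N : ℂ) ^ 2 else 0 := by
  have h1 : ∑ i ∈ range N, ∑ j ∈ range N, (uv N i j q')⁻¹ * uv N i j q =
      (if q'.1 = q.1 then (N : ℂ) else 0) * (if q'.2 = q.2 then (N : ℂ) else 0) := by
    rw [← ph_orth' hN 0, ← ph_orth' hN 1, Finset.sum_mul_sum]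
    refine Finset.sum_congr rfl fun x _ => Finset.sum_congr rfl fun y _ => ?_
    unfold uv
    rw [mul_inv]
    ring
  rw [h1]
  by_cases h : q' = q
  · subst h
    simp [sq]
  · rw [if_neg h]
    by_cases h2 : q'.1 = q.1
    · have h3 : q'.2 ≠ q.2 := fun h3 => h (Prod.ext h2 h3)
      simp [h3]
    · simp [h2]

lemma zero_of_uv (hN : 0 < N) (T : Matrix (Fin N × Fin N) (Fin N × Fin N) ℂ)
    (h : ∀ i j : ℤ, T *ᵥ uv N i j = 0) : T = 0 := by
  have hN0 : (N : ℂ) ≠ 0 := by exact_mod_cast hN.ne'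
  ext p q'
  have h1 : (N : ℂ) ^ 2 * T p q' = ∑ q, T p q * ∑ i ∈ range N, ∑ j ∈ range N,
      (uv N i j q')⁻¹ * uv N i j q := by
    simp only [uv_orth' hN]
    simp [mul_comm]
  have h2 : ∑ q, T p q * ∑ i ∈ range N, ∑ j ∈ range N, (uv N i j q')⁻¹ * uv N i j q =
      ∑ i ∈ range N, ∑ j ∈ range N, (uv N i j q')⁻¹ * (T *ᵥ uv N i j) p := by
    simp only [mulVec, dotProduct, Finset.mul_sum]
    rw [Finset.sum_comm]
    refine Finset.sum_congr rfl fun i _ => ?_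
    rw [Finset.sum_comm]
    refine Finset.sum_congr rfl fun j _ => Finset.sum_congr rfl fun q _ => ?_
    ring
  rw [h2] at h1
  simp only [h, Pi.zero_apply, mul_zero, Finset.sum_const_zero] at h1
  rcases mul_eq_zero.1 h1 with h3 | h3
  · exact absurd h3 (pow_ne_zero _ hN0)
  · rw [h3, Matrix.zero_apply]

theorem task_ZU : S_ZU := by
  intro N hN n1
  refine ⟨zm_uv hN n1, ?_⟩
  intro T T' h
  have := zero_of_uv hN (T - T') (fun i j => by rw [Matrix.sub_mulVec, h, sub_self])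
  exact sub_eq_zero.1 this

/-! ### the weights -/

lemma uv_sh (i j : ℤ) (p : Fin N × Fin N) :
    uv N (i + 1) (j + 1) p = cs N (2 * ((-((p.1 : ℕ) + (p.2 : ℕ) : ℤ) : ℤ) : ℝ)) * uv N i j p := by
  unfold uv ph
  rw [← cs_add, ← cs_add, ← cs_add]
  congr 1
  push_cast
  ring

lemma wv_sh (n1 s : ℤ) (p : Fin N × Fin N) :
    wv N n1 (s + 1) p = cs N (2 * ((-((p.1 : ℕ) + (p.2 : ℕ) : ℤ) : ℤ) : ℝ)) * wv N n1 s p := by
  simp only [wv, Finset.sum_apply, Pi.smul_apply, smul_eq_mul, Finset.mul_sum]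
  refine Finset.sum_congr rfl fun a _ => Finset.sum_congr rfl fun b _ => ?_
  rw [show s + 1 + (a : ℤ) + b = (s + a + b) + 1 by ring, show s + 1 + (b : ℤ) = (s + b) + 1 by ring,
    uv_sh]
  ring

lemma zv_sh (n1 i j : ℤ) (p : Fin N × Fin N) :
    zv N n1 (i + 1) (j + 1) p =
      cs N (2 * ((-((p.1 : ℕ) + (p.2 : ℕ) : ℤ) : ℤ) : ℝ)) * zv N n1 i j p := by
  simp only [zv, Finset.sum_apply, Pi.smul_apply, smul_eq_mul, Finset.mul_sum]
  rw [show j + 1 - (i + 1) - 1 = j - i - 1 by ring]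
  refine Finset.sum_congr rfl fun b _ => ?_
  rw [show j + 1 + (b : ℤ) = (j + b) + 1 by ring, wv_sh]
  ring

lemma sum_sh (g : ℤ → ℂ) (hg : g N = g 0) : ∑ i ∈ range N, g (i + 1) = ∑ i ∈ range N, g i := by
  have h1 := Finset.sum_range_succ (fun i : ℕ => g i) N
  have h2 := Finset.sum_range_succ' (fun i : ℕ => g i) N
  simp only [Nat.cast_add, Nat.cast_one, Nat.cast_zero] at h2
  rw [h1, hg] at h2
  exact (add_right_cancel h2).symm

theorem task_ZW : S_ZW := by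
  intro N hN n1 p q hne
  have h1 : Zm N n1 p q = cs N (2 * ((((q.1 : ℕ) + (q.2 : ℕ) : ℤ) - ((p.1 : ℕ) + (p.2 : ℕ) : ℤ) : ℤ)
      : ℝ)) * Zm N n1 p q := by
    unfold Zm
    have h2 : ∑ i ∈ range N, ∑ j ∈ range N, (uv N i j q)⁻¹ * zv N n1 i j p =
        ∑ i ∈ range N, ∑ j ∈ range N, (uv N (i + 1) (j + 1) q)⁻¹ * zv N n1 (i + 1) (j + 1) p := by
      rw [← sum_sh (fun i => ∑ j ∈ range N, (uv N i j q)⁻¹ * zv N n1 i j p)]
      · refine Finset.sum_congr rfl fun i _ => ?_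
        rw [← sum_sh (fun j => (uv N (i + 1) j q)⁻¹ * zv N n1 (i + 1) j p)]
        rw [uv_per hN (i := (i : ℤ) + 1) (i' := (i : ℤ) + 1) (j := 0) (j' := N) (by simp) (by simp),
          zv_per hN n1 (i := (i : ℤ) + 1) (i' := (i : ℤ) + 1) (j := 0) (j' := N) (by simp) (by simp)]
      · refine Finset.sum_congr rfl fun j _ => ?_
        rw [uv_per hN (j := (j : ℤ)) (j' := (j : ℤ)) (i := 0) (i' := N) (by simp) (by simp),
          zv_per hN n1 (j := (j : ℤ)) (j' := (j : ℤ)) (i := 0) (i' := N) (by simp) (by simp)]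
    conv_lhs => rw [h2]
    simp only [uv_sh, zv_sh, Finset.mul_sum]
    refine Finset.sum_congr rfl fun i _ => Finset.sum_congr rfl fun j _ => ?_
    rw [mul_inv, ← cs_neg]
    have e : cs N (2 * ((((q.1 : ℕ) + (q.2 : ℕ) : ℤ) - ((p.1 : ℕ) + (p.2 : ℕ) : ℤ) : ℤ) : ℝ)) =
        cs N (-(2 * ((-((q.1 : ℕ) + (q.2 : ℕ) : ℤ) : ℤ) : ℝ))) *
          cs N (2 * ((-((p.1 : ℕ) + (p.2 : ℕ) : ℤ) : ℤ) : ℝ)) := by
      rw [← cs_add]
      congr 1
      push_cast
      ring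
    rw [e]
    ring
  have h3 : cs N (2 * ((((q.1 : ℕ) + (q.2 : ℕ) : ℤ) - ((p.1 : ℕ) + (p.2 : ℕ) : ℤ) : ℤ) : ℝ)) = 1 := by
    have h4 : 1 * Zm N n1 p q = cs N (2 * ((((q.1 : ℕ) + (q.2 : ℕ) : ℤ) -
      ((p.1 : ℕ) + (p.2 : ℕ) : ℤ) : ℤ) : ℝ)) * Zm N n1 p q := by rw [one_mul]; exact h1
    exact (mul_right_cancel₀ hne h4).symm
  have h5 := cs_eq_one hN h3
  rw [← neg_sub]
  exact (dvd_neg).2 h5

end Pool.Agent.Q24.FAL
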