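import Pool.Agent.Q99.FAL.Stm

/-! # Project FAL, job UN: uniqueness -/

set_option autoImplicit false

namespace Pool.Agent.Q24.FAL

open Matrix Finset
open scoped Kronecker
open Pool.Agent.H550R3.Jones (WM IsMod IsInt br brf W irr tens)
open Pool.Agent.W715.VC (rt)
open Pool.Agent.Q99.FAL

variable {N : ℕ}

lemma sum_up (f : Fin N → ℂ) (i : Fin N) (c : Fin N → ℂ) :
    ∑ k : Fin N, f k * (if (i : ℕ) = k + 1 then c i else 0) =
      if h : 0 < (i : ℕ) then f ⟨i - 1, by omega⟩ * c i else 0 := by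
  split_ifs with h
  · rw [Finset.sum_eq_single (⟨i - 1, by omega⟩ : Fin N)]
    · have : (i : ℕ) = ((⟨i - 1, by omega⟩ : Fin N) : ℕ) + 1 := by simp; omega
      rw [if_pos this]
    · intro k _ hk
      rw [if_neg, mul_zero]
      intro h2
      apply hk
      apply Fin.ext
      simp only []
      omega
    · intro h2
      exact absurd (Finset.mem_univ _) h2
  · apply Finset.sum_eq_zero
    intro k _
    rw [if_neg, mul_zero]
    omega

lemma sum_dn (f : Fin N → ℂ) (i : Fin N) (c : Fin N → ℂ) :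
    ∑ k : Fin N, (if (k : ℕ) = i + 1 then c k else 0) * f k =
      if h : (i : ℕ) + 1 < N then c ⟨i + 1, h⟩ * f ⟨i + 1, h⟩ else 0 := by
  split_ifs with h
  · rw [Finset.sum_eq_single (⟨i + 1, h⟩ : Fin N)]
    · rw [if_pos rfl]
    · intro k _ hk
      rw [if_neg, zero_mul]
      intro h2
      exact hk (Fin.ext h2)
    · intro h2
      exact absurd (Finset.mem_univ _) h2
  · apply Finset.sum_eq_zero
    intro k _
    rw [if_neg, zero_mul]
    have := k.2
    omega

lemma in1 (a w : ℂ) (f : Fin N → ℂ) (j : Fin N) :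
    ∑ l : Fin N, a * (if j = l then w else 0) * f l = a * (w * f j) := by
  rw [Finset.sum_eq_single j]
  · rw [if_pos rfl]; ring
  · intro l _ hl
    rw [if_neg hl.symm]
    ring
  · intro h; exact absurd (Finset.mem_univ _) h

lemma in2 (f : Fin N → Fin N → ℂ) (g : Fin N → ℂ) (i : Fin N) :
    ∑ k : Fin N, ∑ l : Fin N, (if i = k then 1 else 0) * g l * f k l = ∑ l, g l * f i l := by
  rw [Finset.sum_eq_single i]
  · simp only [if_true, one_mul]
  · intro k _ hk
    apply Finset.sum_eq_zero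
    intro l _
    rw [if_neg hk.symm]
    ring
  · intro h; exact absurd (Finset.mem_univ _) h

/-- `E` applied to a vector -/
lemma E_vec (v : ℂ) (y : Fin N × Fin N → ℂ) (i j : Fin N) :
    ((W v N).E *ᵥ y) (i, j) =
      (if h : (i : ℕ) + 1 < N then br v ((N : ℤ) - ((i : ℕ) + 1 : ℕ)) *
        v ^ ((N : ℤ) - 1 - 2 * (j : ℕ)) * y (⟨i + 1, h⟩, j) else 0) +
      (if h : (j : ℕ) + 1 < N then br v ((N : ℤ) - ((j : ℕ) + 1 : ℕ)) * y (i, ⟨j + 1, h⟩) else 0) := by
  have h1 := sum_dn (fun k => v ^ ((N : ℤ) - 1 - 2 * (j : ℕ)) * y (k, j)) i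
    (fun k => br v ((N : ℤ) - (k : ℕ)))
  have h2 := sum_dn (fun k => y (i, k)) j (fun k => br v ((N : ℤ) - (k : ℕ)))
  simp only [mulVec, dotProduct, Fintype.sum_prod_type, W, tens, irr, WM.K, Matrix.add_apply,
    kroneckerMap_apply, Matrix.diagonal_apply, Matrix.one_apply, add_mul, Finset.sum_add_distrib]
  rw [in2 (fun k l => y (k, l)), h2]
  simp only [in1 _ _ (fun l => y (_, l)), one_mul]
  rw [h1]
  congr 1
  split_ifs <;> simp [mul_assoc]

lemma in1' (a w : ℂ) (f : Fin N → ℂ) (j : Fin N) :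
    ∑ l : Fin N, f l * (a * (if l = j then w else 0)) = f j * (a * w) := by
  rw [Finset.sum_eq_single j]
  · rw [if_pos rfl]
  · intro l _ hl
    rw [if_neg hl]
    ring
  · intro h; exact absurd (Finset.mem_univ _) h

/-- a column of `T * F` -/
lemma F_col (v : ℂ) (T : Matrix (Fin N × Fin N) (Fin N × Fin N) ℂ) (p : Fin N × Fin N)
    (i j : Fin N) :
    (T * (W v N).F) p (i, j) =
      (if h : (i : ℕ) + 1 < N then T p (⟨i + 1, h⟩, j) * br v (((i : ℕ) + 1 : ℕ) : ℤ) else 0) +
      (if h : (j : ℕ) + 1 < N then T p (i, ⟨j + 1, h⟩) *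
        (v ^ (-((N : ℤ) - 1 - 2 * (i : ℕ))) * br v (((j : ℕ) + 1 : ℕ) : ℤ)) else 0) := by
  have h1 := sum_dn (fun k => T p (k, j)) i (fun k => br v ((k : ℕ) : ℤ))
  have h2 := sum_dn (fun k => T p (i, k) * v ^ (-((N : ℤ) - 1 - 2 * (i : ℕ)))) j
    (fun k => br v ((k : ℕ) : ℤ))
  simp only [Matrix.mul_apply, Fintype.sum_prod_type, W, tens, irr, WM.K, Matrix.add_apply,
    kroneckerMap_apply, Matrix.diagonal_apply, Matrix.one_apply, mul_add, Finset.sum_add_distrib]
  simp only [in1' _ _ (fun l => T p (_, l)), mul_one]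
  have e2 : ∀ k : Fin N, ∑ l : Fin N, T p (k, l) *
      ((if k = i then v ^ (-1 * ((N : ℤ) - 1 - 2 * ((k : ℕ) : ℤ))) else 0) *
        (if (l : ℕ) = j + 1 then br v ((l : ℕ) : ℤ) else 0)) =
      (if k = i then 1 else 0) * ∑ l : Fin N, (if (l : ℕ) = j + 1 then br v ((l : ℕ) : ℤ) else 0) *
        (T p (i, l) * v ^ (-((N : ℤ) - 1 - 2 * (i : ℕ)))) := by
    intro k
    by_cases hk : k = i
    · subst hk
      simp only [if_true, one_mul]
      apply Finset.sum_congr rfl
      intro l _
      rw [neg_one_mul]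
      ring
    · simp [hk]
  simp only [e2]
  rw [h2, ← Finset.sum_mul, Finset.sum_ite_eq' Finset.univ i, if_pos (Finset.mem_univ i), one_mul]
  congr 1
  · rw [← Finset.sum_congr rfl (fun k _ => mul_comm _ _), h1]
    split_ifs
    · ring
    · rfl
  · split_ifs
    · simp only []
      ring
    · rfl

lemma in3 (f : Fin N → ℂ) (i : Fin N) (h0 : (i : ℕ) = 0) (g : Fin N → ℂ) :
    ∑ k : Fin N, (if (i : ℕ) = k + 1 then f k else 0) * g k = 0 := by
  apply Finset.sum_eq_zero
  intro k _
  rw [if_neg (by omega), zero_mul]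

/-- the column `(0, x)` of `T * E` -/
lemma E_col (v : ℂ) (T : Matrix (Fin N × Fin N) (Fin N × Fin N) ℂ) (p : Fin N × Fin N)
    (i j : Fin N) (h0 : (i : ℕ) = 0) :
    (T * (W v N).E) p (i, j) =
      (if h : 0 < (j : ℕ) then T p (i, ⟨j - 1, by omega⟩) * br v ((N : ℤ) - (j : ℕ)) else 0) := by
  have h2 := sum_up (fun k => T p (i, k)) j (fun k => br v ((N : ℤ) - (k : ℕ)))
  simp only [Matrix.mul_apply, Fintype.sum_prod_type, W, tens, irr, WM.K, Matrix.add_apply,
    kroneckerMap_apply, Matrix.diagonal_apply, Matrix.one_apply, mul_add, Finset.sum_add_distrib]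
  have e1 : ∑ x : Fin N, ∑ l : Fin N, T p (x, l) *
      ((if (i : ℕ) = x + 1 then br v ((N : ℤ) - (i : ℕ)) else 0) *
        if l = j then v ^ (1 * ((N : ℤ) - 1 - 2 * ((l : ℕ) : ℤ))) else 0) = 0 := by
    apply Finset.sum_eq_zero
    intro x _
    apply Finset.sum_eq_zero
    intro l _
    rw [if_neg (by omega)]
    ring
  rw [e1, zero_add, ← h2]
  rw [Finset.sum_eq_single i]
  · simp only [if_true, one_mul]
  · intro k _ hk
    apply Finset.sum_eq_zero
    intro l _
    rw [if_neg hk]
    ring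
  · intro h; exact absurd (Finset.mem_univ _) h

theorem task_UN : S_UN := by
  intro N hN T hE hF hw hd
  have hrt : rt N ≠ 0 := Complex.exp_ne_zero _
  -- the columns `(0, x)`
  have hA : ∀ x : ℕ, ∀ hx : x < N, ∀ p, T p (⟨0, hN⟩, ⟨x, hx⟩) = 0 := by
    intro x
    induction x with
    | zero =>
      intro hx
      have key : ∀ i : ℕ, ∀ hi : i < N, ∀ k : Fin N, T (⟨i, hi⟩, k) (⟨0, hN⟩, ⟨0, hx⟩) = 0 := by
        intro i
        induction i with
        | zero =>
          intro hi k
          by_contra hne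
          have h1 := hw _ _ hne
          simp only [Nat.cast_zero, add_zero, zero_add, sub_zero] at h1
          have h2 : (k : ℕ) = 0 := by
            have h3 : N ∣ (k : ℕ) := by exact_mod_cast h1
            exact Nat.eq_zero_of_dvd_of_lt h3 k.2
          have h4 : k = ⟨0, hN⟩ := Fin.ext h2
          rw [h4] at hne
          exact hne (hd ⟨0, hN⟩)
        | succ i ih =>
          intro hi k
          have h1 := congrFun (congrFun hE (⟨i, by omega⟩, k)) (⟨0, hN⟩, ⟨0, hx⟩)
          rw [E_col _ _ _ _ _ rfl, dif_neg (by simp)] at h1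
          have h2 : ((W (rt N) N).E * T) (⟨i, by omega⟩, k) (⟨0, hN⟩, ⟨0, hx⟩) =
            ((W (rt N) N).E *ᵥ (fun r => T r (⟨0, hN⟩, ⟨0, hx⟩))) (⟨i, by omega⟩, k) := rfl
          rw [h2, E_vec, dif_pos hi] at h1
          have h3 : (if h : (k : ℕ) + 1 < N then br (rt N) ((N : ℤ) - ((k : ℕ) + 1 : ℕ)) *
            T (⟨i, by omega⟩, ⟨k + 1, h⟩) (⟨0, hN⟩, ⟨0, hx⟩) else 0) = 0 := by
            split_ifs with h
            · rw [ih, mul_zero]
            · rfl
          rw [h3, add_zero] at h1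
          have h4 : br (rt N) ((N : ℤ) - ((i : ℕ) + 1 : ℕ)) ≠ 0 := by
            have := Pool.Agent.Q99.FW.brne (N := N) (n := N - (i + 1)) (by omega) (by omega)
            rwa [Nat.cast_sub hi.le] at this
          have h5 : rt N ^ ((N : ℤ) - 1 - 2 * (k : ℕ)) ≠ 0 := zpow_ne_zero _ hrt
          exact (mul_eq_zero.1 h1.symm).resolve_left (mul_ne_zero h4 h5)
      rintro ⟨i, k⟩
      exact key i i.2 k
    | succ x ihx =>
      intro hx
      have key : ∀ i : ℕ, ∀ hi : i < N, ∀ k : Fin N,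
          T (⟨i, hi⟩, k) (⟨0, hN⟩, ⟨x + 1, hx⟩) = 0 := by
        intro i
        induction i with
        | zero =>
          intro hi k
          by_contra hne
          have h1 := hw _ _ hne
          simp only [Nat.cast_zero, zero_add] at h1
          have h4 : k = ⟨x + 1, hx⟩ := by
            apply Fin.ext
            have hk := k.2
            obtain ⟨c, hc⟩ := h1
            simp only []
            have hc0 : c = 0 := by
              by_contra hc0
              have hk' : ((k : ℕ) : ℤ) < N := by exact_mod_cast k.2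
              have hx' : ((x + 1 : ℕ) : ℤ) < N := by exact_mod_cast hx
              have hN' : (0 : ℤ) < N := by exact_mod_cast hN
              rcases lt_or_gt_of_ne hc0 with h | h
              · nlinarith
              · nlinarith
            rw [hc0, mul_zero] at hc
            omega
          rw [h4] at hne
          exact hne (hd _)
        | succ i ih =>
          intro hi k
          have h1 := congrFun (congrFun hE (⟨i, by omega⟩, k)) (⟨0, hN⟩, ⟨x + 1, hx⟩)
          rw [E_col _ _ _ _ _ rfl, dif_pos (by simp)] at h1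
          have h0 : T (⟨i, by omega⟩, k) (⟨0, hN⟩, ⟨x + 1 - 1, by omega⟩) = 0 :=
            ihx (by omega) (⟨i, by omega⟩, k)
          simp only [h0, zero_mul] at h1
          have h2 : ((W (rt N) N).E * T) (⟨i, by omega⟩, k) (⟨0, hN⟩, ⟨x + 1, hx⟩) =
            ((W (rt N) N).E *ᵥ (fun r => T r (⟨0, hN⟩, ⟨x + 1, hx⟩))) (⟨i, by omega⟩, k) := rfl
          rw [h2, E_vec, dif_pos hi] at h1
          have h3 : (if h : (k : ℕ) + 1 < N then br (rt N) ((N : ℤ) - ((k : ℕ) + 1 : ℕ)) *
            T (⟨i, by omega⟩, ⟨k + 1, h⟩) (⟨0, hN⟩, ⟨x + 1, hx⟩) else 0) = 0 := by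
            split_ifs with h
            · rw [ih, mul_zero]
            · rfl
          rw [h3, add_zero] at h1
          have h4 : br (rt N) ((N : ℤ) - ((i : ℕ) + 1 : ℕ)) ≠ 0 := by
            have := Pool.Agent.Q99.FW.brne (N := N) (n := N - (i + 1)) (by omega) (by omega)
            rwa [Nat.cast_sub hi.le] at this
          have h5 : rt N ^ ((N : ℤ) - 1 - 2 * (k : ℕ)) ≠ 0 := zpow_ne_zero _ hrt
          exact (mul_eq_zero.1 h1.symm).resolve_left (mul_ne_zero h4 h5)
      rintro ⟨i, k⟩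
      exact key i i.2 k
  have hB : ∀ i : ℕ, ∀ hi : i < N, ∀ j : Fin N, ∀ p, T p (⟨i, hi⟩, j) = 0 := by
    intro i
    induction i with
    | zero =>
      intro hi j p
      exact hA j j.2 p
    | succ i ih =>
      intro hi j p
      have h1 := congrFun (congrFun hF p) (⟨i, by omega⟩, j)
      rw [F_col, dif_pos hi] at h1
      have h2 : ((W (rt N) N).F * T) p (⟨i, by omega⟩, j) = 0 := by
        rw [Matrix.mul_apply]
        apply Finset.sum_eq_zero
        intro r _
        rw [ih, mul_zero]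
      have h3 : (if h : (j : ℕ) + 1 < N then T p (⟨i, by omega⟩, ⟨j + 1, h⟩) *
          (rt N ^ (-((N : ℤ) - 1 - 2 * (i : ℕ))) * br (rt N) (((j : ℕ) + 1 : ℕ) : ℤ)) else 0) = 0 := by
        split_ifs with h
        · rw [ih, zero_mul]
        · rfl
      rw [h2, h3, add_zero] at h1
      exact (mul_eq_zero.1 h1).resolve_right (Pool.Agent.Q99.FW.brne (by omega) hi)
  ext p ⟨i, j⟩
  exact hB i i.2 j p

end Pool.Agent.Q24.FAL
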