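import Pool.Agent.Q24.FAL.Bas

/-! # Project FAL, job ZC: `Zm` commutes with `E` and `F` -/

set_option autoImplicit false

namespace Pool.Agent.Q24.FAL

open Matrix Finset
open Pool.Agent.H550R3.Jones (WM IsMod IsInt br brf W irr tens)
open Pool.Agent.W715.VC (rt)
open Pool.Agent.W719.BS (D D_pos)
open Pool.Agent.Q191.TW (cs cs_add cs_zero cs_ne cs_neg cs_norm rt_cs cs_period cs_period')
open Pool.Agent.Q99.FW (TZ Tri TZ_of TZ_zero)
open Pool.Agent.Q99.FAL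

variable {N : ℕ}

lemma br_cs (k : ℤ) : br (rt N) k = cs N k - cs N (-(k : ℝ)) := by
  unfold br
  rw [rt_cs, rt_cs]
  push_cast
  rfl

lemma br_sin (k : ℤ) : br (rt N) k = 2 * Complex.I * ((Real.sin (Real.pi * k / N) : ℝ) : ℂ) := by
  rw [br_cs]
  unfold cs
  have e : (Real.pi * (-(k : ℝ)) / N : ℝ) = -(Real.pi * k / N) := by ring
  rw [e, Complex.ofReal_neg, Complex.ofReal_sin, Complex.sin]
  simp only [neg_mul]
  linear_combination (Complex.exp (((Real.pi * k / N : ℝ) : ℂ) * Complex.I) -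
    Complex.exp (-(((Real.pi * k / N : ℝ) : ℂ) * Complex.I))) * Complex.I_sq

lemma D_succ (n : ℕ) : D N (n + 1) = D N n * (2 * Real.sin (Real.pi * (n + 1) / N)) := by
  unfold D
  rw [prod_range_succ]

/-- (PASCAL) -/
lemma pas {n : ℤ} (h0 : 0 ≤ n) (hn : n < N) (k : ℤ) :
    br (rt N) k * ((bq N n k : ℝ) : ℂ) = br (rt N) (n - k + 1) * ((bq N n (k - 1) : ℝ) : ℂ) := by
  have z0 : br (rt N) 0 = 0 := by rw [br_sin]; simp
  rcases lt_trichotomy k 0 with h | h | h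
  · have e1 : bq N n k = 0 := TZ_zero (by omega)
    have e2 : bq N n (k - 1) = 0 := TZ_zero (by omega)
    rw [e1, e2]
    simp
  · subst h
    have e2 : bq N n (0 - 1) = 0 := TZ_zero (by omega)
    rw [e2, z0]
    simp
  rcases lt_trichotomy k (n + 1) with h' | h' | h'
  · have hk : k.toNat = (k - 1).toNat + 1 := by omega
    have hk2 : (n - (k - 1)).toNat = (n - k).toNat + 1 := by omega
    have e1 : bq N n k = N / (D N k.toNat * D N (n - k).toNat * D N ((N : ℤ) - 1 - n).toNat) :=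
      TZ_of (by omega) (by omega) (by omega)
    have e2 : bq N n (k - 1) =
        N / (D N (k - 1).toNat * D N (n - (k - 1)).toNat * D N ((N : ℤ) - 1 - n).toNat) :=
      TZ_of (by omega) (by omega) (by omega)
    have p1 := D_pos N (k - 1).toNat (by omega)
    have p2 := D_pos N (n - k).toNat (by omega)
    have p3 := D_pos N ((N : ℤ) - 1 - n).toNat (by omega)
    have p4 := D_pos N k.toNat (by omega)
    have p5 := D_pos N (n - (k - 1)).toNat (by omega)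
    rw [br_sin, br_sin, e1, e2]
    have c1 : (((k - 1).toNat : ℕ) : ℝ) + 1 = k := by
      have : (((k - 1).toNat : ℕ) : ℤ) + 1 = k := by omega
      exact_mod_cast this
    have c2 : (((n - k).toNat : ℕ) : ℝ) + 1 = ((n - k + 1 : ℤ) : ℝ) := by
      have : (((n - k).toNat : ℕ) : ℤ) + 1 = n - k + 1 := by omega
      exact_mod_cast this
    have d1 := D_succ (N := N) (k - 1).toNat
    rw [← hk, c1] at d1
    have d2 := D_succ (N := N) (n - k).toNat
    rw [← hk2, c2] at d2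
    have s1 : 2 * Real.sin (Real.pi * k / N) = D N k.toNat / D N (k - 1).toNat := by
      rw [d1]; field_simp
    have s2 : 2 * Real.sin (Real.pi * ((n - k + 1 : ℤ) : ℝ) / N) =
        D N (n - (k - 1)).toNat / D N (n - k).toNat := by
      rw [d2]; field_simp
    have key : 2 * Real.sin (Real.pi * k / N) *
        (N / (D N k.toNat * D N (n - k).toNat * D N ((N : ℤ) - 1 - n).toNat)) =
        2 * Real.sin (Real.pi * ((n - k + 1 : ℤ) : ℝ) / N) *
        (N / (D N (k - 1).toNat * D N (n - (k - 1)).toNat * D N ((N : ℤ) - 1 - n).toNat)) := by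
      rw [s1, s2]
      field_simp
    have key' := congrArg (fun x : ℝ => (x : ℂ)) key
    simp only [Complex.ofReal_mul, Complex.ofReal_ofNat] at key'
    linear_combination Complex.I * key'
  · subst h'
    have e1 : bq N n (n + 1) = 0 := TZ_zero (by omega)
    rw [e1, show n - (n + 1) + 1 = 0 by ring, z0]
    simp
  · have e1 : bq N n k = 0 := TZ_zero (by omega)
    have e2 : bq N n (k - 1) = 0 := TZ_zero (by omega)
    rw [e1, e2]
    simp

/-! ### the coefficients -/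

/-- the coefficient `h (a, b)` -/
noncomputable def hh (N : ℕ) (n1 a b : ℤ) : ℂ :=
  cs N (((N : ℝ) - 1) * (a + 2 * b + 1)) *
    ((bq N (N - 1 - n1) a * bq N n1 b * bq N n1 (a + b) : ℝ) : ℂ)

/-- `Z (i, a)` -/
noncomputable def ZZ (N : ℕ) (n1 i a : ℤ) : Fin N × Fin N → ℂ :=
  ∑ b ∈ range N, hh N n1 a b • wv N n1 (i + 1 + a + b)

lemma zv_ZZ {a : ℤ} (ha : 0 ≤ a) (haN : a < N) (n1 i : ℤ) : zv N n1 i (i + 1 + a) = ZZ N n1 i a := by
  have e : (i + 1 + a - i - 1) % (N : ℤ) = a := by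
    rw [show i + 1 + a - i - 1 = a by ring]
    exact Int.emod_eq_of_lt ha haN
  unfold zv ZZ
  rw [e]
  refine Finset.sum_congr rfl fun b _ => ?_
  unfold hh
  push_cast
  rfl

lemma cs_N1 (hN : 0 < N) : cs N ((N : ℝ) - 1) = -(cs N 1)⁻¹ := by
  rw [sub_eq_add_neg, cs_add, cs_neg]
  have h1 : cs N (N : ℝ) = -1 := by
    have := Pool.Agent.Q99.FW.cs_neg_one hN 1
    rw [pow_one] at this
    rw [this]
    congr 1
    push_cast
    ring
  rw [h1]
  ring

lemma hh_neg (n1 a : ℤ) : hh N n1 a (-1) = 0 := by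
  have e1 : bq N n1 (-1) = 0 := TZ_zero (by omega)
  unfold hh
  rw [e1]
  simp

lemma hh_N {n1 : ℤ} (h : n1 < N) (a : ℤ) : hh N n1 a N = 0 := by
  have e1 : bq N n1 N = 0 := TZ_zero (by omega)
  unfold hh
  rw [e1]
  simp

lemma om_N (hN : 0 < N) {k l : ℤ} (h : (N : ℤ) ∣ k - l) : om N k = om N l := by
  obtain ⟨c, hc⟩ := h
  unfold om
  have hk : (k : ℝ) = l + N * c := by
    have : k = l + N * c := by linarith
    exact_mod_cast this
  refine cs_period' hN c ?_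
  rw [hk]
  ring

lemma sum_cmp {V : Type} [AddCommGroup V] [Module ℂ V] (n : ℕ) (X : ℤ → V) (f g f' g' : ℤ → ℂ)
    (hf : f n = 0) (hf' : f' n = 0) (hg : g (-1) = 0) (hg' : g' (-1) = 0)
    (h : ∀ c : ℤ, f c + g (c - 1) = f' c + g' (c - 1)) :
    ∑ b ∈ range n, (f b • X b + g b • X (b + 1)) =
      ∑ b ∈ range n, (f' b • X b + g' b • X (b + 1)) := by
  have key : ∀ f g : ℤ → ℂ, f n = 0 → g (-1) = 0 →
      ∑ b ∈ range n, (f b • X b + g b • X (b + 1)) =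
        ∑ c ∈ range (n + 1), (f c + g (c - 1)) • X c := by
    intro f g hf hg
    rw [Finset.sum_add_distrib]
    have e1 : ∑ b ∈ range n, f b • X b = ∑ c ∈ range (n + 1), f c • X c := by
      rw [Finset.sum_range_succ, hf, zero_smul, add_zero]
    have e2 : ∑ b ∈ range n, g b • X ((b : ℤ) + 1) = ∑ c ∈ range (n + 1), g ((c : ℤ) - 1) • X c := by
      rw [Finset.sum_range_succ']
      simp only [Nat.cast_add, Nat.cast_one, Nat.cast_zero, zero_sub, hg, zero_smul, add_zero,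
        add_sub_cancel_right]
    rw [e1, e2, ← Finset.sum_add_distrib]
    refine Finset.sum_congr rfl fun c _ => ?_
    rw [add_smul]
  rw [key f g hf hg, key f' g' hf' hg']
  refine Finset.sum_congr rfl fun c _ => ?_
  rw [h]

lemma rt_ne : rt N ≠ 0 := Complex.exp_ne_zero _

lemma om_rt (k : ℤ) : om N k = (rt N ^ k) ^ 2 := by
  unfold om
  rw [rt_cs, sq, ← cs_add]
  congr 1
  ring

lemma rt_N (hN : 0 < N) : rt N ^ (N : ℤ) = -1 := by
  rw [rt_cs]
  have := Pool.Agent.Q99.FW.cs_neg_one hN 1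
  rw [pow_one] at this
  rw [this]
  congr 1
  push_cast
  ring

lemma br_N (hN : 0 < N) (m : ℤ) : br (rt N) ((N : ℤ) - m) = br (rt N) m := by
  unfold br
  have h := rt_N hN
  rw [zpow_sub₀ rt_ne, _root_.zpow_neg, zpow_sub₀ rt_ne, h, _root_.zpow_neg]
  have h2 : rt N ^ m ≠ 0 := zpow_ne_zero _ rt_ne
  field_simp
  ring

lemma hh1 (hN : 0 < N) (n1 a b : ℤ) : hh N n1 a b =
    cs N (((N : ℝ) - 1) * (a + 2 * b - 1)) * ((rt N)⁻¹) ^ 2 *
      (((bq N (N - 1 - n1) a : ℝ) : ℂ) * ((bq N n1 b : ℝ) : ℂ) * ((bq N n1 (a + b) : ℝ) : ℂ)) := by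
  have h1 : rt N = cs N 1 := by
    have := rt_cs N 1
    rw [zpow_one] at this
    rw [this]
    norm_num
  have h2 : cs N (((N : ℝ) - 1) * (a + 2 * b + 1)) = cs N (((N : ℝ) - 1) * (a + 2 * b - 1)) *
      ((rt N)⁻¹) ^ 2 := by
    have e : ((N : ℝ) - 1) * (a + 2 * b + 1) = ((N : ℝ) - 1) * (a + 2 * b - 1) + ((N : ℝ) - 1) +
      ((N : ℝ) - 1) := by ring
    rw [e, cs_add, cs_add, cs_N1 hN, ← h1]
    ring
  unfold hh
  rw [h2]
  push_cast
  ring

lemma hh2 (n1 a b : ℤ) : hh N n1 a (b - 1) =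
    cs N (((N : ℝ) - 1) * (a + 2 * b - 1)) *
      (((bq N (N - 1 - n1) a : ℝ) : ℂ) * ((bq N n1 (b - 1) : ℝ) : ℂ) *
        ((bq N n1 (a + b - 1) : ℝ) : ℂ)) := by
  have e : ((N : ℝ) - 1) * (a + 2 * ((b - 1 : ℤ) : ℝ) + 1) = ((N : ℝ) - 1) * (a + 2 * b - 1) := by
    push_cast
    ring
  unfold hh
  rw [e, show a + (b - 1) = a + b - 1 by ring]
  push_cast
  ring

lemma hh3 (hN : 0 < N) (n1 a b : ℤ) : hh N n1 (a + 1) (b - 1) =
    cs N (((N : ℝ) - 1) * (a + 2 * b - 1)) * (-(rt N)⁻¹) *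
      (((bq N (N - 1 - n1) (a + 1) : ℝ) : ℂ) * ((bq N n1 (b - 1) : ℝ) : ℂ) *
        ((bq N n1 (a + b) : ℝ) : ℂ)) := by
  have h1 : rt N = cs N 1 := by
    have := rt_cs N 1
    rw [zpow_one] at this
    rw [this]
    norm_num
  have e : ((N : ℝ) - 1) * (((a + 1 : ℤ) : ℝ) + 2 * ((b - 1 : ℤ) : ℝ) + 1) =
      ((N : ℝ) - 1) * (a + 2 * b - 1) + ((N : ℝ) - 1) := by
    push_cast
    ring
  unfold hh
  rw [e, cs_add, cs_N1 hN, ← h1, show a + 1 + (b - 1) = a + b by ring]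
  push_cast
  ring

lemma pasP (hN : 0 < N) {n1 : ℤ} (h0 : 0 ≤ n1) (hn : n1 < N) (a b : ℤ) :
    (rt N ^ b - (rt N ^ b)⁻¹) * ((bq N n1 b : ℝ) : ℂ) =
      (rt N ^ n1 * (rt N ^ b)⁻¹ * rt N - (rt N ^ n1)⁻¹ * rt N ^ b * (rt N)⁻¹) *
        ((bq N n1 (b - 1) : ℝ) : ℂ) ∧
    (rt N ^ a * rt N ^ b - (rt N ^ a)⁻¹ * (rt N ^ b)⁻¹) * ((bq N n1 (a + b) : ℝ) : ℂ) =
      (rt N ^ n1 * (rt N ^ a)⁻¹ * (rt N ^ b)⁻¹ * rt N -
        (rt N ^ n1)⁻¹ * rt N ^ a * rt N ^ b * (rt N)⁻¹) * ((bq N n1 (a + b - 1) : ℝ) : ℂ) ∧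
    (rt N ^ a * rt N - (rt N ^ a)⁻¹ * (rt N)⁻¹) * ((bq N (N - 1 - n1) (a + 1) : ℝ) : ℂ) =
      (rt N ^ n1 * rt N ^ a * rt N - (rt N ^ n1)⁻¹ * (rt N ^ a)⁻¹ * (rt N)⁻¹) *
        ((bq N (N - 1 - n1) a : ℝ) : ℂ) := by
  have hr := rt_ne (N := N)
  have e : ∀ x y z : ℤ, rt N ^ (x + y + z) = rt N ^ x * rt N ^ y * rt N ^ z := by
    intro x y z
    rw [zpow_add₀ hr, zpow_add₀ hr]
  refine ⟨?_, ?_, ?_⟩
  · have h := pas h0 hn b
    unfold br at h
    rw [_root_.zpow_neg, _root_.zpow_neg, zpow_add₀ hr, zpow_sub₀ hr, zpow_one] at h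
    rw [h]
    congr 1
    rw [mul_inv, div_eq_mul_inv, mul_inv, inv_inv]
  · have h := pas h0 hn (a + b)
    unfold br at h
    rw [_root_.zpow_neg, _root_.zpow_neg, zpow_add₀ hr (n1 - (a + b)) 1, zpow_sub₀ hr, zpow_one,
      zpow_add₀ hr a b, mul_inv] at h
    rw [h]
    congr 1
    rw [mul_inv, div_eq_mul_inv, mul_inv, mul_inv, mul_inv, inv_inv, inv_inv]
    ring
  · have h := pas (N := N) (n := (N : ℤ) - 1 - n1) (by omega) (by omega) (a + 1)
    have e2 : (N : ℤ) - 1 - n1 - (a + 1) + 1 = N - (n1 + a + 1) := by ring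
    rw [e2, br_N hN, add_sub_cancel_right] at h
    unfold br at h
    rw [_root_.zpow_neg, _root_.zpow_neg, zpow_add₀ hr (n1 + a) 1, zpow_add₀ hr n1 a, zpow_add₀ hr a 1, zpow_one,
      mul_inv, mul_inv, mul_inv] at h
    exact h

lemma coefE (hN : 0 < N) {n1 : ℤ} (h0 : 0 ≤ n1) (hn : n1 < N) (i a b : ℤ) :
    hh N n1 a b * om N (-i - a - b) + -(hh N n1 a (b - 1) * om N (n1 - i - 1 - a - (b - 1))) =
      om N (-i - a) * hh N n1 a b + ((om N (-i) - om N (-i - 1 - a)) * hh N n1 (a + 1) (b - 1) -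
        om N (-1 - i) * hh N n1 a (b - 1)) := by
  obtain ⟨P1, P2, P3⟩ := pasP hN h0 hn a b
  rw [hh1 hN, hh2, hh3 hN]
  have hr := rt_ne (N := N)
  have x1 : rt N ^ (-i - a - b) = (rt N ^ i)⁻¹ * (rt N ^ a)⁻¹ * (rt N ^ b)⁻¹ := by
    rw [zpow_sub₀ hr, zpow_sub₀ hr, _root_.zpow_neg]; rfl
  have x2 : rt N ^ (n1 - i - 1 - a - (b - 1)) =
      rt N ^ n1 * (rt N ^ i)⁻¹ * (rt N ^ a)⁻¹ * (rt N ^ b)⁻¹ := by
    rw [show n1 - i - 1 - a - (b - 1) = n1 - i - a - b by ring, zpow_sub₀ hr, zpow_sub₀ hr,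
      zpow_sub₀ hr]; rfl
  have x3 : rt N ^ (-i - a) = (rt N ^ i)⁻¹ * (rt N ^ a)⁻¹ := by
    rw [zpow_sub₀ hr, _root_.zpow_neg]; rfl
  have x4 : rt N ^ (-i) = (rt N ^ i)⁻¹ := _root_.zpow_neg _ _
  have x5 : rt N ^ (-i - 1 - a) = (rt N ^ i)⁻¹ * (rt N)⁻¹ * (rt N ^ a)⁻¹ := by
    rw [zpow_sub₀ hr, zpow_sub₀ hr, _root_.zpow_neg, zpow_one]; rfl
  have x6 : rt N ^ (-1 - i) = (rt N)⁻¹ * (rt N ^ i)⁻¹ := by
    rw [zpow_sub₀ hr, _root_.zpow_neg, zpow_one]; rfl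
  simp only [om_rt, x1, x2, x3, x4, x5, x6]
  have va := zpow_ne_zero a hr
  have vb := zpow_ne_zero b hr
  have vn := zpow_ne_zero n1 hr
  have vi := zpow_ne_zero i hr
  generalize cs N (((N : ℝ) - 1) * (a + 2 * b - 1)) = G
  generalize ((bq N (N - 1 - n1) a : ℝ) : ℂ) = A at *
  generalize ((bq N (N - 1 - n1) (a + 1) : ℝ) : ℂ) = A' at *
  generalize ((bq N n1 b : ℝ) : ℂ) = B at *
  generalize ((bq N n1 (b - 1) : ℝ) : ℂ) = B' at *
  generalize ((bq N n1 (a + b) : ℝ) : ℂ) = C at *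
  generalize ((bq N n1 (a + b - 1) : ℝ) : ℂ) = C' at *
  generalize rt N ^ a = ra at *
  generalize rt N ^ b = rb at *
  generalize rt N ^ n1 = rn at *
  generalize rt N ^ i = ri at *
  generalize rt N = r at *
  linear_combination (norm := skip) (-(G * ri⁻¹ ^ 2 * ra⁻¹ ^ 2 * rb⁻¹ * r⁻¹ ^ 2 * A * C)) * P1 +
    (G * ri⁻¹ ^ 2 * A * B' * (rn * ra⁻¹ * rb⁻¹ * r⁻¹)) * P2 +
    (ra⁻¹ * r⁻¹ ^ 2 * G * ri⁻¹ ^ 2 * B' * C) * P3
  field_simp
  ring

lemma coefF (hN : 0 < N) {n1 : ℤ} (h0 : 0 ≤ n1) (hn : n1 < N) (i a b : ℤ) :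
    om N (i + 1 + a + b) * hh N n1 a b + -(om N (i + a + (b - 1) - n1) * hh N n1 a (b - 1)) =
      om N (i + 1 + a) * hh N n1 a b + ((om N i - om N (i + 1 + a)) * hh N n1 (a + 1) (b - 1) -
        om N i * hh N n1 a (b - 1)) := by
  obtain ⟨P1, P2, P3⟩ := pasP hN h0 hn a b
  rw [hh1 hN, hh2, hh3 hN]
  have hr := rt_ne (N := N)
  have x1 : rt N ^ (i + 1 + a + b) = rt N ^ i * rt N * rt N ^ a * rt N ^ b := by
    rw [zpow_add₀ hr, zpow_add₀ hr, zpow_add₀ hr, zpow_one]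
  have x2 : rt N ^ (i + a + (b - 1) - n1) =
      rt N ^ i * rt N ^ a * rt N ^ b * (rt N)⁻¹ * (rt N ^ n1)⁻¹ := by
    rw [show i + a + (b - 1) - n1 = i + a + b - 1 - n1 by ring, zpow_sub₀ hr, zpow_sub₀ hr,
      zpow_add₀ hr, zpow_add₀ hr, zpow_one]; rfl
  have x3 : rt N ^ (i + 1 + a) = rt N ^ i * rt N * rt N ^ a := by
    rw [zpow_add₀ hr, zpow_add₀ hr, zpow_one]
  simp only [om_rt, x1, x2, x3]
  have va := zpow_ne_zero a hr
  have vb := zpow_ne_zero b hr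
  have vn := zpow_ne_zero n1 hr
  have vi := zpow_ne_zero i hr
  generalize cs N (((N : ℝ) - 1) * (a + 2 * b - 1)) = G
  generalize ((bq N (N - 1 - n1) a : ℝ) : ℂ) = A at *
  generalize ((bq N (N - 1 - n1) (a + 1) : ℝ) : ℂ) = A' at *
  generalize ((bq N n1 b : ℝ) : ℂ) = B at *
  generalize ((bq N n1 (b - 1) : ℝ) : ℂ) = B' at *
  generalize ((bq N n1 (a + b) : ℝ) : ℂ) = C at *
  generalize ((bq N n1 (a + b - 1) : ℝ) : ℂ) = C' at *
  generalize rt N ^ a = ra at *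
  generalize rt N ^ b = rb at *
  generalize rt N ^ n1 = rn at *
  generalize rt N ^ i = ri at *
  generalize rt N = r at *
  linear_combination (norm := skip) (G * ri ^ 2 * ra ^ 2 * rb * A * C) * P1 -
    (G * ri ^ 2 * A * B' * (ra * rb * r⁻¹ * rn⁻¹)) * P2 -
    (ra * G * ri ^ 2 * B' * C) * P3
  field_simp
  ring

/-! ### the operators -/

lemma E_ZZ (hW : ∀ s : ℤ, ∀ n1 : ℤ, 0 ≤ n1 → n1 < N →
      (W (rt N) N).E *ᵥ wv N n1 s = -cs N (-(1 / 2)) • (om N (1 - s) • wv N n1 s -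
        om N (n1 - s) • wv N n1 (s + 1))) (hN : 0 < N) {n1 : ℤ} (h0 : 0 ≤ n1) (hn : n1 < N)
    (i a : ℤ) : (W (rt N) N).E *ᵥ ZZ N n1 i a = -cs N (-(1 / 2)) • (om N (-i - a) • ZZ N n1 i a +
      (om N (-i) - om N (-i - 1 - a)) • ZZ N n1 i (a + 1) - om N (-1 - i) • ZZ N n1 (i + 1) a) := by
  have h := sum_cmp N (fun b => wv N n1 (i + 1 + a + b))
    (fun b => hh N n1 a b * om N (-i - a - b)) (fun b => -(hh N n1 a b * om N (n1 - i - 1 - a - b)))
    (fun b => om N (-i - a) * hh N n1 a b)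
    (fun b => (om N (-i) - om N (-i - 1 - a)) * hh N n1 (a + 1) b - om N (-1 - i) * hh N n1 a b)
    (by simp only [hh_N hn, zero_mul]) (by simp only [hh_N hn, mul_zero])
    (by simp only [hh_neg, zero_mul, neg_zero]) (by simp only [hh_neg, mul_zero, sub_zero])
    (fun c => coefE hN h0 hn i a c)
  have e1 : (W (rt N) N).E *ᵥ ZZ N n1 i a = -cs N (-(1 / 2)) •
      ∑ b ∈ range N, ((hh N n1 a b * om N (-i - a - b)) • wv N n1 (i + 1 + a + b) +
        (-(hh N n1 a b * om N (n1 - i - 1 - a - b))) • wv N n1 (i + 1 + a + (b + 1))) := by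
    unfold ZZ
    rw [Matrix.mulVec_sum, Finset.smul_sum]
    refine Finset.sum_congr rfl fun b _ => ?_
    rw [Matrix.mulVec_smul, hW _ _ h0 hn]
    rw [show 1 - (i + 1 + a + (b : ℤ)) = -i - a - b by ring,
      show n1 - (i + 1 + a + (b : ℤ)) = n1 - i - 1 - a - b by ring,
      show i + 1 + a + (b : ℤ) + 1 = i + 1 + a + (b + 1) by ring]
    module
  rw [e1]
  rw [h]
  congr 1
  unfold ZZ
  rw [Finset.smul_sum, Finset.smul_sum, Finset.smul_sum, ← Finset.sum_add_distrib,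
    ← Finset.sum_sub_distrib]
  refine Finset.sum_congr rfl fun b _ => ?_
  rw [show i + 1 + (a + 1) + (b : ℤ) = i + 1 + a + (b + 1) by ring,
    show i + 1 + 1 + a + (b : ℤ) = i + 1 + a + (b + 1) by ring]
  module

lemma F_ZZ (hW : ∀ s : ℤ, ∀ n1 : ℤ, 0 ≤ n1 → n1 < N →
      (W (rt N) N).F *ᵥ wv N n1 s = cs N (-(1 / 2)) • (-om N (s - n1 - 1) • wv N n1 s +
        om N s • wv N n1 (s - 1))) (hN : 0 < N) {n1 : ℤ} (h0 : 0 ≤ n1) (hn : n1 < N)
    (i a : ℤ) : (W (rt N) N).F *ᵥ ZZ N n1 i a = cs N (-(1 / 2)) • (-om N i • ZZ N n1 i a +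
      (om N i - om N (i + 1 + a)) • ZZ N n1 (i - 1) (a + 1) +
        om N (i + 1 + a) • ZZ N n1 (i - 1) a) := by
  have h := sum_cmp N (fun b => wv N n1 (i + a + b))
    (fun b => om N (i + 1 + a + b) * hh N n1 a b) (fun b => -(om N (i + a + b - n1) * hh N n1 a b))
    (fun b => om N (i + 1 + a) * hh N n1 a b)
    (fun b => (om N i - om N (i + 1 + a)) * hh N n1 (a + 1) b - om N i * hh N n1 a b)
    (by simp only [hh_N hn, mul_zero]) (by simp only [hh_N hn, mul_zero])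
    (by simp only [hh_neg, mul_zero, neg_zero]) (by simp only [hh_neg, mul_zero, sub_zero])
    (fun c => coefF hN h0 hn i a c)
  have e1 : (W (rt N) N).F *ᵥ ZZ N n1 i a = cs N (-(1 / 2)) •
      ∑ b ∈ range N, ((om N (i + 1 + a + b) * hh N n1 a b) • wv N n1 (i + a + b) +
        (-(om N (i + a + b - n1) * hh N n1 a b)) • wv N n1 (i + a + (b + 1))) := by
    unfold ZZ
    rw [Matrix.mulVec_sum, Finset.smul_sum]
    refine Finset.sum_congr rfl fun b _ => ?_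
    rw [Matrix.mulVec_smul, hW _ _ h0 hn]
    rw [show i + 1 + a + (b : ℤ) - n1 - 1 = i + a + b - n1 by ring,
      show i + 1 + a + (b : ℤ) - 1 = i + a + b by ring,
      show i + a + ((b : ℤ) + 1) = i + 1 + a + b by ring]
    module
  rw [e1]
  rw [h]
  congr 1
  unfold ZZ
  rw [Finset.smul_sum, Finset.smul_sum, Finset.smul_sum, ← Finset.sum_add_distrib,
    ← Finset.sum_add_distrib]
  refine Finset.sum_congr rfl fun b _ => ?_
  rw [show i - 1 + 1 + (a + 1) + (b : ℤ) = i + a + (b + 1) by ring,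
    show i - 1 + 1 + a + (b : ℤ) = i + a + b by ring,
    show i + 1 + a + (b : ℤ) = i + a + (b + 1) by ring]
  module

theorem task_ZC : S_ZC := by
  intro hEU hEW _ N hN n1 h0 hn
  have hN' : (0 : ℤ) < N := by exact_mod_cast hN
  have hEW' := hEW hEU
  -- reduction to `j = i + 1 + a`
  have red : ∀ T : Matrix (Fin N × Fin N) (Fin N × Fin N) ℂ,
      (∀ i a : ℤ, 0 ≤ a → a < N → (Zm N n1 * T) *ᵥ uv N i (i + 1 + a) =
        (T * Zm N n1) *ᵥ uv N i (i + 1 + a)) → Zm N n1 * T = T * Zm N n1 := by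
    intro T hT
    have := zero_of_uv hN (Zm N n1 * T - T * Zm N n1) (fun i j => by
      have h1 := Int.emod_nonneg (j - i - 1) hN'.ne'
      have h2 := Int.emod_lt_of_pos (j - i - 1) hN'
      have h3 := hT i ((j - i - 1) % N) h1 h2
      have h4 : uv N i j = uv N i (i + 1 + (j - i - 1) % N) := by
        apply uv_per hN (by simp)
        have h5 := Int.emod_add_mul_ediv (j - i - 1) N
        refine ⟨(j - i - 1) / N, ?_⟩
        linarith
      rw [h4, Matrix.sub_mulVec, h3, sub_self])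
    exact sub_eq_zero.1 this
  constructor
  · apply red
    intro i a ha haN
    rw [← Matrix.mulVec_mulVec, ← Matrix.mulVec_mulVec, (hEU N hN i (i + 1 + a)).1, zm_uv hN,
      zv_ZZ ha haN, E_ZZ (fun s n1 g0 g1 => (hEW' N hN n1 s g0 g1).1) hN h0 hn]
    rw [Matrix.mulVec_smul, Matrix.mulVec_sub, Matrix.mulVec_add, Matrix.mulVec_smul,
      Matrix.mulVec_smul, Matrix.mulVec_smul, zm_uv hN, zm_uv hN, zm_uv hN, zv_ZZ ha haN]
    rw [show i + 1 + a + 1 = (i + 1) + 1 + a by ring, zv_ZZ ha haN,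
      show 1 - (i + 1 + a) = -i - a by ring, show -(i + 1 + a) = -i - 1 - a by ring]
    congr 3
    rcases lt_or_ge (a + 1) (N : ℤ) with h | h
    · rw [show i + 1 + 1 + a = i + 1 + (a + 1) by ring, zv_ZZ (by omega) h]
    · have e : om N (-i) = om N (-i - 1 - a) := by
        apply om_N hN
        have : -i - (-i - 1 - a) = N := by omega
        rw [this]
      rw [e, sub_self, zero_smul, zero_smul]
  · apply red
    intro i a ha haN
    rw [← Matrix.mulVec_mulVec, ← Matrix.mulVec_mulVec, (hEU N hN i (i + 1 + a)).2, zm_uv hN,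
      zv_ZZ ha haN, F_ZZ (fun s n1 g0 g1 => (hEW' N hN n1 s g0 g1).2) hN h0 hn]
    rw [Matrix.mulVec_smul, Matrix.mulVec_add, Matrix.mulVec_add, Matrix.mulVec_smul,
      Matrix.mulVec_smul, Matrix.mulVec_smul, zm_uv hN, zm_uv hN, zm_uv hN, zv_ZZ ha haN]
    rw [show i + 1 + a - 1 = (i - 1) + 1 + a by ring, zv_ZZ ha haN]
    congr 3
    rcases lt_or_ge (a + 1) (N : ℤ) with h | h
    · rw [show i + 1 + a = (i - 1) + 1 + (a + 1) by ring, zv_ZZ (by omega) h]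
    · have e : om N i = om N (i + 1 + a) := by
        apply om_N hN
        have : i - (i + 1 + a) = -(N : ℤ) := by omega
        rw [this]
        simp
      rw [← e, sub_self, zero_smul, zero_smul]

end Pool.Agent.Q24.FAL
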